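import Mathlib
import Pool.Agent.W811.Nd.Stm

/-!
Project ND (owner helper811): part NE, nodes meet the spectrum.
-/

set_option autoImplicit false

open Set Filter Pool.Agent.W811.Stu Pool.Agent.W811.Nd

namespace Pool.Agent.W443.ND

theorem ne (h : TEsc) : TNE := by
  classical
  intro lam d Nd hlam hd h1 h2 m B hB
  have hstep : ∀ p : {p : ℕ × Nod // Nd p.1 p.2}, ∃ q : {p : ℕ × Nod // Nd p.1 p.2},
      p.1.1 < q.1.1 ∧ seg q.1.2 ⊆ seg p.1.2 := by
    intro p
    obtain ⟨m', B', h3, h4, h5⟩ := h2 p.1.1 p.1.2 p.2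
    exact ⟨⟨(m', B'), h4⟩, h3, h5⟩
  choose nx hnx1 hnx2 using hstep
  let s : ℕ → {p : ℕ × Nod // Nd p.1 p.2} := fun n => Nat.rec ⟨(m, B), hB⟩ (fun _ p => nx p) n
  have hs0 : s 0 = ⟨(m, B), hB⟩ := rfl
  have hs : ∀ n, s (n + 1) = nx (s n) := fun n => rfl
  have hge : ∀ n, n ≤ (s n).1.1 := by
    intro n
    induction n with
    | zero => exact Nat.zero_le _
    | succ n ih =>
      rw [hs]
      have := hnx1 (s n)
      omega
  have hne : (⋂ i, seg (s i).1.2).Nonempty := by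
    refine IsCompact.nonempty_iInter_of_sequence_nonempty_isCompact_isClosed
      (fun i => seg (s i).1.2) ?_ ?_ ?_ ?_
    · intro i
      rw [hs]
      exact hnx2 (s i)
    · intro i
      exact Set.nonempty_Icc.2 (h1 _ _ (s i).2).1.le
    · exact isCompact_Icc
    · intro i
      exact isClosed_Icc
  obtain ⟨x, hx⟩ := hne
  rw [Set.mem_iInter] at hx
  refine ⟨x, ?_, by have := hx 0; rwa [hs0] at this⟩
  by_contra hcon
  have ht := h lam hlam d hd x hcon
  have hev := ht.eventually (eventually_gt_atTop (1 : ℝ))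
  obtain ⟨N, hN⟩ := eventually_atTop.1 hev
  have h6 := hN (s N).1.1 (hge N)
  have h7 := (h1 _ _ (s N).2).2 x (hx N)
  exact absurd h6 (not_lt.2 h7)

end Pool.Agent.W443.ND
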